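import Mathlib

set_option autoImplicit false

namespace Pool.Agent.Results.MP_091ced_gt.Closed

/-- The derived set `A^d = {x | x ∈ closure (A \ {x})}`. -/
def derived {X : Type*} [TopologicalSpace X] (A : Set X) : Set X :=
  {x | x ∈ closure (A \ {x})}

theorem result (X : Type*) [TopologicalSpace X] [T0Space X] (A : Set X) :
    IsClosed (derived (derived A)) := by
  rw [← closure_subset_iff_isClosed]
  intro x hx
  by_contra hxn
  have h1 : ∃ U : Set X, IsOpen U ∧ x ∈ U ∧ ∀ z ∈ U, z ∈ derived A → z = x := by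
    have : ¬ (x ∈ closure (derived A \ {x})) := hxn
    rw [mem_closure_iff] at this
    push Not at this
    obtain ⟨U, hU, hxU, hE⟩ := this
    refine ⟨U, hU, hxU, fun z hz hzA => ?_⟩
    by_contra hne
    have : z ∈ U ∩ (derived A \ {x}) := ⟨hz, hzA, hne⟩
    rw [hE] at this
    exact this
  obtain ⟨U, hU, hxU, hUx⟩ := h1
  obtain ⟨y, hyU, hy⟩ := mem_closure_iff.1 hx U hU hxU
  have hyx : y ≠ x := fun h => hxn (h ▸ hy)
  have hy' : y ∈ closure (derived A \ {y}) := hy
  have key : ∀ N : Set X, IsOpen N → y ∈ N → x ∈ N ∧ x ∈ derived A := by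
    intro N hN hyN
    obtain ⟨z, ⟨hzN, hzU⟩, hzA, -⟩ := mem_closure_iff.1 hy' (N ∩ U) (hN.inter hU) ⟨hyN, hyU⟩
    have := hUx z hzU hzA
    subst this
    exact ⟨hzN, hzA⟩
  have hxA : x ∈ closure (A \ {x}) := (key U hU hyU).2
  have hyA : ¬ (y ∈ closure (A \ {y})) := fun h => hyx (hUx y hyU h)
  rw [mem_closure_iff] at hyA
  push Not at hyA
  obtain ⟨W, hW, hyW, hWE⟩ := hyA
  have hxW : x ∈ W := (key W hW hyW).1
  have key2 : ∀ N : Set X, IsOpen N → x ∈ N → y ∈ N := by
    intro N hN hxN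
    obtain ⟨a, ⟨haN, haW⟩, haA, -⟩ := mem_closure_iff.1 hxA (N ∩ W) (hN.inter hW) ⟨hxN, hxW⟩
    by_cases hay : a = y
    · exact hay ▸ haN
    · have : a ∈ W ∩ (A \ {y}) := ⟨haW, haA, hay⟩
      rw [hWE] at this
      exact this.elim
  apply hyx
  apply Inseparable.eq
  rw [inseparable_iff_forall_isOpen]
  intro N hN
  exact ⟨fun h => (key N hN h).1, fun h => key2 N hN h⟩

end Pool.Agent.Results.MP_091ced_gt.Closed
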